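import Mathlib
import Pool.Agent.Results.MP_5382b1_gt.BorelRigidFamily

set_option autoImplicit false

open Set Cardinal Topology

namespace Pool.Agent.Results.MP_27e890_gt.NotClosedWitnesses

/-- A space `Y` is homogeneous if every point can be moved to every other point by a homeomorphism
of `Y` onto itself. -/
def Homogeneous (Y : Type) [TopologicalSpace Y] : Prop :=
  ∀ x y : Y, ∃ h : Y ≃ₜ Y, h x = y

/-- `X` is the union of countably many homogeneous subspaces. -/
def SigmaHomogeneous (X : Type) [TopologicalSpace X] : Prop :=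
  ∃ A : ℕ → Set X, (⋃ n, A n) = Set.univ ∧ ∀ n, Homogeneous (A n)

/-- `X` is the union of countably many homogeneous subspaces which are closed in `X`. -/
def SigmaHomogeneousClosed (X : Type) [TopologicalSpace X] : Prop :=
  ∃ A : ℕ → Set X, (⋃ n, A n) = Set.univ ∧ ∀ n, IsClosed (A n) ∧ Homogeneous (A n)

/-- Zero-dimensional: nonempty with a base of clopen sets. -/
def ZeroDim (X : Type) [TopologicalSpace X] : Prop :=
  Nonempty X ∧ TopologicalSpace.IsTopologicalBasis {U : Set X | IsClopen U}

/-- The basic clopen set of sequences agreeing with `x` below `k`. -/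
def cyl (k : ℕ) (x : ℕ → Bool) : Set (ℕ → Bool) := {y | ∀ i, i < k → y i = x i}

theorem isClosed_cyl (k : ℕ) (x : ℕ → Bool) : IsClosed (cyl k x) := by
  have h : cyl k x = ⋂ i ∈ Set.Iio k, {y : ℕ → Bool | y i = x i} := by
    ext y
    simp [cyl]
  rw [h]
  exact isClosed_biInter fun i _ => isClosed_eq (continuous_apply i) continuous_const

theorem exists_cyl {V : Set (ℕ → Bool)} (hV : IsOpen V) {x : ℕ → Bool} (hx : x ∈ V) :
    ∃ k, cyl k x ⊆ V := by
  obtain ⟨I, u, hu, hsub⟩ := isOpen_pi_iff.mp hV x hx
  refine ⟨I.sup id + 1, fun y hy => hsub ?_⟩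
  intro i hi
  have h1 : i ≤ I.sup id := Finset.le_sup (f := id) hi
  rw [hy i (by omega)]
  exact (hu i hi).2

theorem cyl_uncountable (k : ℕ) (x : ℕ → Bool) : ¬ (cyl k x).Countable := by
  intro hcn
  have h4 : Function.Injective (fun z : ℕ → Bool => fun i => if i < k then x i else z (i - k)) := by
    intro z w hzw
    funext i
    have h5 := congrFun hzw (i + k)
    simpa using h5
  have h3 : Set.range (fun z : ℕ → Bool => fun i => if i < k then x i else z (i - k)) ⊆
      cyl k x := by
    rintro _ ⟨z, rfl⟩ i hi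
    simp [hi]
  have h5 : Countable (ℕ → Bool) := by
    have : Countable (Set.range (fun z : ℕ → Bool => fun i => if i < k then x i else z (i - k))) :=
      hcn.mono h3
    exact (Set.rangeFactorization_injective.2 h4).countable
  have h6 : #(ℕ → Bool) ≤ ℵ₀ := mk_le_aleph0_iff.2 h5
  have h7 : #(ℕ → Bool) = 𝔠 := by
    rw [← Cardinal.power_def, Cardinal.mk_bool, Cardinal.mk_nat, Cardinal.two_power_aleph0]
  rw [h7] at h6
  exact absurd h6 (not_le.mpr aleph0_lt_continuum)

theorem open_uncountable {V : Set (ℕ → Bool)} (hV : IsOpen V) (hne : V.Nonempty) :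
    ¬ V.Countable := by
  obtain ⟨x, hx⟩ := hne
  obtain ⟨k, hk⟩ := exists_cyl hV hx
  exact fun h => cyl_uncountable k x (h.mono hk)

/-- A subspace of the Cantor set which meets all uncountable Borel sets and has no nontrivial
continuous injections of open subspaces into itself is not the union of countably many closed
homogeneous subspaces. -/
theorem not_closed {X : Set (ℕ → Bool)}
    (hB : ∀ D : Set (ℕ → Bool), MeasurableSet D → ¬ D.Countable → 𝔠 ≤ #(D ∩ X : Set (ℕ → Bool)))
    (hinj : ∀ (U : Set X) (f : U → X), IsOpen U → Continuous f → Function.Injective f →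
        ∀ x, f x = x) : ¬ SigmaHomogeneousClosed X := by
  rintro ⟨K, hK, hclosed⟩
  choose F hF hFK using fun n => isClosed_induced_iff.mp (hclosed n).1
  -- some `F n` has an interior point
  have hint : ∃ n, (interior (F n)).Nonempty := by
    by_contra hno
    push Not at hno
    set D : Set (ℕ → Bool) := (⋃ n, F n)ᶜ with hD
    have hDm : MeasurableSet D := (MeasurableSet.iUnion fun n => (hF n).measurableSet).compl
    have hDX : D ∩ X = ∅ := by
      rw [Set.eq_empty_iff_forall_notMem]
      rintro x ⟨hxD, hxX⟩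
      apply hxD
      have h1 : (⟨x, hxX⟩ : X) ∈ ⋃ n, K n := by rw [hK]; trivial
      obtain ⟨n, hn⟩ := Set.mem_iUnion.mp h1
      rw [← hFK n] at hn
      exact Set.mem_iUnion.mpr ⟨n, hn⟩
    have hDc : D.Countable := by
      by_contra hc
      have := hB D hDm hc
      rw [hDX] at this
      simp only [mk_eq_zero, nonpos_iff_eq_zero] at this
      exact continuum_ne_zero this
    have hDc' : Countable D := hDc
    have hcov : (⋃ i : ℕ ⊕ D, Sum.elim F (fun d : D => {(d : ℕ → Bool)}) i) = Set.univ := by
      rw [Set.eq_univ_iff_forall]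
      intro x
      rw [Set.mem_iUnion]
      by_cases hx : x ∈ D
      · exact ⟨Sum.inr ⟨x, hx⟩, rfl⟩
      · rw [hD, Set.notMem_compl_iff, Set.mem_iUnion] at hx
        obtain ⟨n, hn⟩ := hx
        exact ⟨Sum.inl n, hn⟩
    obtain ⟨i, hi⟩ := nonempty_interior_of_iUnion_of_closed (by
      rintro (n | d)
      · exact hF n
      · exact isClosed_singleton) hcov
    rcases i with n | d
    · exact absurd hi (Set.not_nonempty_iff_eq_empty.mpr (hno n))
    · exact open_uncountable isOpen_interior hi
        ((Set.countable_singleton _).mono interior_subset)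
  obtain ⟨n, hn⟩ := hint
  -- two points of `X` in the interior of `F n`
  have h1 := hB _ isOpen_interior.measurableSet (open_uncountable isOpen_interior hn)
  have h2 : Nontrivial (interior (F n) ∩ X : Set (ℕ → Bool)) := by
    rw [← Cardinal.one_lt_iff_nontrivial]
    exact (one_lt_aleph0.trans aleph0_lt_continuum).trans_le h1
  obtain ⟨⟨x, hx⟩, ⟨y, hy⟩, hxy⟩ := h2.exists_pair_ne
  have hUK : ∀ z : X, z ∈ (Subtype.val ⁻¹' interior (F n) : Set X) → z ∈ K n := by
    intro z hz
    rw [← hFK n]
    exact (interior_subset : interior (F n) ⊆ F n) hz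
  obtain ⟨h, hh⟩ := (hclosed n).2 ⟨⟨x, hx.2⟩, hUK _ hx.1⟩ ⟨⟨y, hy.2⟩, hUK _ hy.1⟩
  have h3 := hinj (Subtype.val ⁻¹' interior (F n))
    (fun z => (h ⟨z.1, hUK z.1 z.2⟩).1) (isOpen_interior.preimage continuous_subtype_val)
    (continuous_subtype_val.comp (h.continuous.comp (by fun_prop)))
    (fun a b hab => by
      have h4 := h.injective (Subtype.ext hab)
      have h5 := congrArg Subtype.val h4
      exact Subtype.ext h5) ⟨⟨x, hx.2⟩, hx.1⟩
  simp only at h3
  rw [hh] at h3
  simp only [Subtype.mk.injEq] at h3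
  apply hxy
  exact Subtype.ext h3.symm

/-- In ZFC there are `2^𝔠` pairwise non-homeomorphic zero-dimensional (separable metrizable) spaces
`X s`, each the union of two disjoint homogeneous subspaces (so `σ`-homogeneous), none of which is
the union of countably many closed homogeneous subspaces. -/
theorem result : ∃ A B X : Set (ℕ → Bool) → Set (ℕ → Bool),
    (∀ s, TopologicalSpace.SeparableSpace (X s) ∧ TopologicalSpace.MetrizableSpace (X s) ∧
      ZeroDim (X s)) ∧
    (∀ s, X s = A s ∪ B s ∧ Disjoint (A s) (B s) ∧ Homogeneous (A s) ∧ Homogeneous (B s)) ∧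
    (∀ s, SigmaHomogeneous (X s) ∧ ¬ SigmaHomogeneousClosed (X s)) ∧
    (∀ s t, Nonempty (X s ≃ₜ X t) → s = t) := by
  obtain ⟨A, B, X, h1, h2, h3, -, h5, h6, -, -, h9⟩ :=
    Pool.Agent.Results.MP_5382b1_gt.BorelRigidFamily.result
  refine ⟨A, B, X, fun s => ⟨(h2 s).2.1, (h2 s).2.2.1, ?_, (h2 s).2.2.2⟩, h1, fun s => ⟨(h2 s).1,
    ?_⟩, h9⟩
  · have := (h6 s).1
    exact this.to_nonempty
  · refine not_closed ?_ (h5 s)
    intro D hD hDc
    refine (h3 s D hD hDc).1.trans (mk_le_mk_of_subset ?_)
    intro x hx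
    refine ⟨hx.1, ?_⟩
    rw [(h1 s).1]
    exact Or.inl hx.2

end Pool.Agent.Results.MP_27e890_gt.NotClosedWitnesses
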